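import Pool.Agent.W932.SF.MZ

/-!
Solovay families: support of coded formulas, quantification over all late variables.
-/

set_option autoImplicit false

open FirstOrder FirstOrder.Language Pool.Agent.Helper227.EN

namespace Pool.Agent.W932.SF

open Pool.Agent.Helper578.JD Pool.Agent.Helper578.JD.Oracle Pool.Agent.Helper578.JD.Defs
open Pool.Agent.H623R3.JC
open Pool.Agent.W921.SF

lemma Dg_sup {M : Type} [LA.Structure M] {x y : ℕ → M} {p : ℕ} (h : ∀ i ≤ p, x i = y i) :
    Dg x p = Dg y p := by
  have hp : p = cd p.unpair.1 p.unpair.2.unpair.1 p.unpair.2.unpair.2.unpair.1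
      p.unpair.2.unpair.2.unpair.2 := by simp [cd]
  have h1 : p.unpair.2 ≤ p := Nat.unpair_right_le p
  have h2 : p.unpair.2.unpair.1 ≤ p := (Nat.unpair_left_le _).trans h1
  have h3 : p.unpair.2.unpair.2 ≤ p := (Nat.unpair_right_le _).trans h1
  have h4 : p.unpair.2.unpair.2.unpair.1 ≤ p := (Nat.unpair_left_le _).trans h3
  have h5 : p.unpair.2.unpair.2.unpair.2 ≤ p := (Nat.unpair_right_le _).trans h3
  rw [Bool.eq_iff_iff, hp, Dg_cd, Dg_cd, h _ h2, h _ h4, h _ h5]

lemma code_cases (c : ℕ) : (∃ p, c = cAt p) ∨ (∃ a b, c = cNand a b) ∨ ∃ v a, c = cAll v a := by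
  have h := Nat.pair_unpair c
  rcases Nat.lt_or_ge c.unpair.1 2 with h1 | h1
  · interval_cases h2 : c.unpair.1
    · exact Or.inl ⟨c.unpair.2, h.symm⟩
    · refine Or.inr (Or.inl ⟨c.unpair.2.unpair.1, c.unpair.2.unpair.2, ?_⟩)
      unfold cNand
      rw [Nat.pair_unpair]
      exact h.symm
  · refine Or.inr (Or.inr ⟨c.unpair.1 - 2, c.unpair.2, ?_⟩)
    unfold cAll
    rw [Nat.sub_add_cancel h1]
    exact h.symm

lemma snd_lt_pair (a b : ℕ) (h : a ≠ 0) : b < Nat.pair a b := by
  have := @unpair_snd_lt (Nat.pair a b)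
  simp only [Nat.unpair_pair] at this
  exact this h

lemma lt_cNand (a b : ℕ) : a < cNand a b ∧ b < cNand a b := by
  have h := snd_lt_pair 1 (Nat.pair a b) one_ne_zero
  have h1 := Nat.left_le_pair a b
  have h2 := Nat.right_le_pair a b
  unfold cNand
  omega

lemma lt_cAll (v a : ℕ) : a < cAll v a := snd_lt_pair (v + 2) a (by omega)

theorem sup : S_SUP := by
  intro c
  induction c using Nat.strong_induction_on with
  | _ c ih =>
    intro M _ x y h
    rcases code_cases c with ⟨p, rfl⟩ | ⟨a, b, rfl⟩ | ⟨v, a, rfl⟩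
    · rw [Sat_cAt, Sat_cAt, Dg_sup fun i hi => h i (hi.trans (Nat.right_le_pair 0 p))]
    · obtain ⟨h1, h2⟩ := lt_cNand a b
      rw [Sat_cNand, Sat_cNand, ih a h1 M x y fun i hi => h i (by omega),
        ih b h2 M x y fun i hi => h i (by omega)]
    · have h1 := lt_cAll v a
      rw [Sat_cAll, Sat_cAll]
      refine forall_congr' fun z => ih a h1 M _ _ fun i hi => ?_
      by_cases hv : i = v
      · subst hv; simp
      · rw [Function.update_of_ne hv, Function.update_of_ne hv, h i (by omega)]

/-- quantify over all the variables `b + i` with `i` in the list `l` -/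
def allL (b c : ℕ) (l : List ℕ) : ℕ := l.foldr (fun i acc => cAll (b + i) acc) c

open Classical in
lemma Sat_allL (b c : ℕ) (l : List ℕ) {M : Type} [LA.Structure M] (x : ℕ → M) :
    Sat (allL b c l) x ↔ ∀ y : ℕ → M, Sat c fun j => if ∃ i ∈ l, j = b + i then y j else x j := by
  induction l generalizing x with
  | nil =>
    simp only [allL, List.foldr_nil, List.not_mem_nil, false_and, exists_false, if_false]
    exact ⟨fun h _ => h, fun h => h x⟩
  | cons a l ih =>
    have e : allL b c (a :: l) = cAll (b + a) (allL b c l) := rfl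
    rw [e, Sat_cAll]
    constructor
    · intro h y
      have h1 := (ih _).1 (h (y (b + a))) y
      have h2 : (fun j => if ∃ i ∈ l, j = b + i then y j else
          Function.update x (b + a) (y (b + a)) j) =
          fun j => if ∃ i ∈ a :: l, j = b + i then y j else x j := by
        funext j
        by_cases h3 : ∃ i ∈ l, j = b + i
        · have h4 : ∃ i ∈ a :: l, j = b + i := by
            obtain ⟨i, hi, hj⟩ := h3
            exact ⟨i, List.mem_cons_of_mem _ hi, hj⟩
          rw [if_pos h3, if_pos h4]
        · rw [if_neg h3]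
          by_cases h5 : j = b + a
          · subst h5
            rw [Function.update_self, if_pos ⟨a, List.mem_cons_self, rfl⟩]
          · have h4 : ¬ ∃ i ∈ a :: l, j = b + i := by
              rintro ⟨i, hi, hj⟩
              rcases List.mem_cons.1 hi with rfl | hi
              · exact h5 hj
              · exact h3 ⟨i, hi, hj⟩
            rw [Function.update_of_ne h5, if_neg h4]
      rwa [h2] at h1
    · intro h z
      rw [ih]
      intro y
      have h1 := h fun j => if ∃ i ∈ l, j = b + i then y j else z
      have h2 : (fun j => if ∃ i ∈ a :: l, j = b + i then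
          (if ∃ i ∈ l, j = b + i then y j else z) else x j) =
          fun j => if ∃ i ∈ l, j = b + i then y j else Function.update x (b + a) z j := by
        funext j
        by_cases h3 : ∃ i ∈ l, j = b + i
        · have h4 : ∃ i ∈ a :: l, j = b + i := by
            obtain ⟨i, hi, hj⟩ := h3
            exact ⟨i, List.mem_cons_of_mem _ hi, hj⟩
          rw [if_pos h4, if_pos h3, if_pos h3]
        · by_cases h5 : j = b + a
          · subst h5
            rw [if_pos ⟨a, List.mem_cons_self, rfl⟩, if_neg h3, if_neg h3, Function.update_self]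
          · have h4 : ¬ ∃ i ∈ a :: l, j = b + i := by
              rintro ⟨i, hi, hj⟩
              rcases List.mem_cons.1 hi with rfl | hi
              · exact h5 hj
              · exact h3 ⟨i, hi, hj⟩
            rw [if_neg h4, if_neg h3, Function.update_of_ne h5]
      rwa [h2] at h1

lemma primrec_cAll : Primrec₂ cAll :=
  Primrec₂.natPair.comp (Primrec.nat_add.comp Primrec.fst (Primrec.const 2)) Primrec.snd

theorem all : S_ALL := by
  refine ⟨fun b c => allL b c (List.range (c + 1)), ?_, fun b c M _ x => ?_⟩
  · apply Primrec₂.to_comp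
    have h1 : Primrec fun q : ℕ × ℕ => List.range (q.2 + 1) :=
      Primrec.list_range.comp (Primrec.succ.comp Primrec.snd)
    have h2 : Primrec₂ fun (q : ℕ × ℕ) (s : ℕ × ℕ) => cAll (q.1 + s.1) s.2 :=
      primrec_cAll.comp (Primrec.nat_add.comp (Primrec.fst.comp Primrec.fst)
        (Primrec.fst.comp Primrec.snd)) (Primrec.snd.comp Primrec.snd)
    exact Primrec.list_foldr h1 Primrec.snd h2
  · rw [Sat_allL]
    refine forall_congr' fun y => sup c M _ _ fun j hj => ?_
    by_cases h : j < b
    · have h1 : ¬ ∃ i ∈ List.range (c + 1), j = b + i := by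
        rintro ⟨i, -, hi⟩; omega
      rw [if_neg h1, if_pos h]
    · have h1 : ∃ i ∈ List.range (c + 1), j = b + i :=
        ⟨j - b, List.mem_range.2 (by omega), by omega⟩
      rw [if_pos h1, if_neg h]

theorem taskAll : S_ALL ∧ S_SUP := ⟨all, sup⟩

end Pool.Agent.W932.SF
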