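import Pool.Agent.W921.SF.Stm

/-!
Solovay families: from a model of PA to a set of codes of facts.
-/

set_option autoImplicit false

open FirstOrder FirstOrder.Language Pool.Agent.Helper227.EN

namespace Pool.Agent.W932.SF

open Pool.Agent.Helper578.JD Pool.Agent.Helper578.JD.Oracle Pool.Agent.Helper578.JD.Defs
open Pool.Agent.H623R3.JC
open Pool.Agent.W921.SF

lemma lookup_le (l : List (ℕ × ℕ)) (w j : ℕ) (h : l.lookup w = some j) :
    j ≤ Encodable.encode l := by
  induction l with
  | nil => simp at h
  | cons a l ih =>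
    obtain ⟨a1, a2⟩ := a
    rw [Encodable.encode_list_cons]
    rw [List.lookup_cons] at h
    have h1 := Nat.left_le_pair (Encodable.encode (a1, a2)) (Encodable.encode l)
    have h2 := Nat.right_le_pair (Encodable.encode (a1, a2)) (Encodable.encode l)
    have h3 : a2 ≤ Encodable.encode (a1, a2) := Nat.right_le_pair a1 a2
    by_cases hw : (w == a1) = true
    · simp only [hw] at h
      have : a2 = j := by simpa using h
      omega
    · simp only [hw] at h
      have := ih h
      omega

lemma lk_le (E : Env) (w : ℕ) : lk E w ≤ Encodable.encode E := by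
  have h1 : Encodable.encode E.1 ≤ Encodable.encode E := Nat.left_le_pair _ _
  have h2 : E.2 ≤ Encodable.encode E := Nat.right_le_pair _ _
  unfold lk
  cases h : E.1.lookup w with
  | none => simpa using h2
  | some j =>
    have := lookup_le E.1 w j h
    simp only [Option.getD_some]
    omega

lemma lk_lt (c v : ℕ) (E : Env) (w : ℕ) : lk E w < hk c v E := by
  have h0 := lk_le E w
  have h1 : Encodable.encode E ≤ Encodable.encode (v, E) := Nat.right_le_pair _ _
  have h2 : Encodable.encode (v, E) ≤ Encodable.encode (c, (v, E)) := Nat.right_le_pair _ _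
  unfold hk
  omega

lemma lk_set (E : Env) (v j w : ℕ) : lk (E.set v j) w = Function.update (lk E) v j w := by
  unfold lk Env.set
  simp only [List.lookup_cons]
  by_cases h : w = v
  · subst h; simp
  · have h' : (w == v) = false := by simpa using h
    rw [h', Function.update_of_ne h]

section model

variable {M : Type} [LA.Structure M]

open Classical in
/-- the values of the parameters -/
noncomputable def CC (M : Type) [LA.Structure M] (n : ℕ) : M :=
  if n % 2 = 0 then nv M (n / 2) else
    match (Encodable.decode (n / 2) : Option (ℕ × (ℕ × Env))) with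
    | none => nv M 0
    | some q =>
      if h : ∃ y, ¬ Sat q.1 (Function.update
        (fun w => if _h : lk q.2.2 w < n then CC M (lk q.2.2 w) else nv M 0) q.2.1 y) then h.choose
      else nv M 0
termination_by n
decreasing_by exact _h

lemma CC_even (j : ℕ) : CC M (2 * j) = nv M j := by
  unfold CC
  have h1 : (2 * j) % 2 = 0 := by omega
  have h2 : (2 * j) / 2 = j := by omega
  rw [if_pos h1, h2]

open Classical in
lemma CC_odd (c v : ℕ) (E : Env)
    (h : ∃ y, ¬ Sat c (Function.update (fun w => CC M (lk E w)) v y)) :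
    ¬ Sat c (Function.update (fun w => CC M (lk E w)) v (CC M (hk c v E))) := by
  have h1 : ¬ hk c v E % 2 = 0 := by unfold hk; omega
  have h2 : hk c v E / 2 = Encodable.encode (c, (v, E)) := by unfold hk; omega
  have h3 : (fun w => if _h : lk E w < hk c v E then CC M (lk E w) else nv M 0) =
      fun w => CC M (lk E w) := by
    funext w; rw [dif_pos (lk_lt c v E w)]
  have h4 : ∀ F : ℕ → M, F = (fun w => CC M (lk E w)) →
      ¬ Sat c (Function.update (fun w => CC M (lk E w)) v
        (if h : ∃ y, ¬ Sat c (Function.update F v y) then h.choose else nv M 0)) := by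
    rintro F rfl
    rw [dif_pos h]
    exact h.choose_spec
  have h5 := h4 _ h3
  have h6 : CC M (hk c v E) = (if h : ∃ y, ¬ Sat c (Function.update
      (fun w => if _h : lk E w < hk c v E then CC M (lk E w) else nv M 0) v y) then h.choose
      else nv M 0) := by
    conv_lhs => unfold CC
    rw [if_neg h1, h2, Encodable.encodek]
  rw [h6]
  exact h5

lemma upd_lk (E : Env) (v j : ℕ) :
    (fun w => CC M (lk (E.set v j) w)) = Function.update (fun w => CC M (lk E w)) v (CC M j) := by
  funext w
  rw [lk_set]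
  by_cases h : w = v
  · subst h; simp
  · rw [Function.update_of_ne h, Function.update_of_ne h]

lemma Dg_cd (b : ℕ → M) (c i j l : ℕ) : Dg b (cd c i j l) = true ↔
    (c = 0 ∧ Structure.funMap (L := LA) AF.add ![b i, b j] = b l) ∨
    (c = 1 ∧ Structure.funMap (L := LA) AF.mul ![b i, b j] = b l) ∨
    (c = 2 ∧ Structure.RelMap (L := LA) AR.lt ![b i, b j]) ∨
    (c = 3 ∧ Structure.funMap (L := LA) AF.zero ![] = b i) ∨
    (c = 4 ∧ Structure.funMap (L := LA) AF.one ![] = b i) := by
  unfold Dg cd
  simp only [Nat.unpair_pair]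
  by_cases h0 : c = 0
  · subst h0; simp
  by_cases h1 : c = 1
  · subst h1; simp
  by_cases h2 : c = 2
  · subst h2; simp
  by_cases h3 : c = 3
  · subst h3; simp
  by_cases h4 : c = 4
  · subst h4; simp
  simp [h0, h1, h2, h3, h4]

lemma nv_zero : nv M 0 = Structure.funMap (L := LA) AF.zero ![] := by
  simp only [nv, num, t0, Term.realize_constants]
  exact congrArg (Structure.funMap (L := LA) AF.zero) (Subsingleton.elim (default : Fin 0 → M) ![])

lemma nv_succ (j : ℕ) : nv M (j + 1) = Structure.funMap (L := LA) AF.add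
    ![nv M j, Structure.funMap (L := LA) AF.one ![] ] := by
  have h1 : (t1 : LA.Term Empty).realize (default : Empty → M) =
      Structure.funMap (L := LA) AF.one ![] := by
    simp only [t1, Term.realize_constants]
    exact congrArg (Structure.funMap (L := LA) AF.one)
      (Subsingleton.elim (default : Fin 0 → M) ![])
  unfold nv
  simp only [num, tadd, Functions.apply₂, Term.realize_func]
  congr 1
  funext i
  fin_cases i
  · rfl
  · exact h1

lemma Dg_rs (b : ℕ → M) (p : ℕ) (E : Env) : Dg (fun w => b (lk E w)) p = Dg b (rs p E) := by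
  have hp : p = cd p.unpair.1 p.unpair.2.unpair.1 p.unpair.2.unpair.2.unpair.1
      p.unpair.2.unpair.2.unpair.2 := by simp [cd]
  rw [Bool.eq_iff_iff]
  conv_lhs => rw [hp]
  unfold rs
  rw [Dg_cd, Dg_cd]

/-- the facts which are true -/
def ZZ (M : Type) [LA.Structure M] : Set ℕ :=
  {z | ∃ (c : ℕ) (E : Env), z = fct c E ∧ Sat c fun w => CC M (lk E w)}

lemma mem_ZZ (c : ℕ) (E : Env) : fct c E ∈ ZZ M ↔ Sat c fun w => CC M (lk E w) := by
  constructor
  · rintro ⟨c', E', h, h'⟩
    have := Encodable.encode_injective h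
    obtain ⟨rfl, rfl⟩ := Prod.mk.inj this
    exact h'
  · intro h
    exact ⟨c, E, rfl, h⟩

end model

theorem task : S_MZ := by
  intro Ax hAx a M _ hM hsat
  refine ⟨ZZ M, fun c hc hok => ?_⟩
  obtain ⟨hp, hn⟩ := hok
  cases hc with
  | nand1 c d E =>
    have h1 := (mem_ZZ _ _).1 (hp (fct (cNand c d) E) (by simp))
    have h2 := (mem_ZZ _ _).1 (hp (fct c E) (by simp))
    have h3 := (mem_ZZ _ _).1 (hp (fct d E) (by simp))
    rw [Sat_cNand] at h1
    exact h1 ⟨h2, h3⟩
  | nand2 c d E =>
    have h1 := (not_congr (mem_ZZ (M := M) _ _)).1 (hn (fct (cNand c d) E) (by simp))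
    have h2 := (not_congr (mem_ZZ (M := M) _ _)).1 (hn (fct c E) (by simp))
    rw [Sat_cNand] at h1
    exact h1 fun h => h2 h.1
  | nand3 c d E =>
    have h1 := (not_congr (mem_ZZ (M := M) _ _)).1 (hn (fct (cNand c d) E) (by simp))
    have h2 := (not_congr (mem_ZZ (M := M) _ _)).1 (hn (fct d E) (by simp))
    rw [Sat_cNand] at h1
    exact h1 fun h => h2 h.2
  | all1 c v j E =>
    have h1 := (mem_ZZ _ _).1 (hp (fct (cAll v c) E) (by simp))
    have h2 := (not_congr (mem_ZZ (M := M) _ _)).1 (hn (fct c (E.set v j)) (by simp))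
    rw [Sat_cAll] at h1
    rw [upd_lk] at h2
    exact h2 (h1 _)
  | all2 c v E =>
    have h1 := (mem_ZZ _ _).1 (hp (fct c (E.set v (hk c v E))) (by simp))
    have h2 := (not_congr (mem_ZZ (M := M) _ _)).1 (hn (fct (cAll v c) E) (by simp))
    rw [Sat_cAll] at h2
    push Not at h2
    rw [upd_lk] at h1
    exact CC_odd c v E h2 h1
  | atom p p' E E' h =>
    have h1 := (mem_ZZ _ _).1 (hp (fct (cAt p) E) (by simp))
    have h2 := (not_congr (mem_ZZ (M := M) _ _)).1 (hn (fct (cAt p') E') (by simp))
    rw [Sat_cAt, Dg_rs] at h1 h2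
    rw [h] at h1
    exact h2 h1
  | ax c E hc =>
    have h2 := (not_congr (mem_ZZ (M := M) _ _)).1 (hn (fct c E) (by simp))
    exact h2 (hAx c hc M hM _)
  | zero =>
    have h2 := (not_congr (mem_ZZ (M := M) _ _)).1 (hn (fct (cAt (cd 3 0 0 0)) ([], 0)) (by simp))
    rw [Sat_cAt] at h2
    refine h2 ?_
    have h0 : CC M 0 = nv M 0 := by simpa using CC_even (M := M) 0
    rw [Dg_cd]
    refine Or.inr (Or.inr (Or.inr (Or.inl ⟨rfl, ?_⟩)))
    show _ = CC M 0
    rw [h0, nv_zero]
  | succ j =>
    have h2 := (not_congr (mem_ZZ (M := M) _ _)).1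
      (hn (fct cSucc ([(0, 2 * j), (1, 2 * j + 2)], 0)) (by simp))
    refine h2 ?_
    have e0 : lk ([(0, 2 * j), (1, 2 * j + 2)], 0) 0 = 2 * j := by simp [lk]
    have e1 : lk ([(0, 2 * j), (1, 2 * j + 2)], 0) 1 = 2 * j + 2 := by
      simp [lk, List.lookup_cons]
    have e2 : CC M (2 * j + 2) = nv M (j + 1) := by
      have := CC_even (M := M) (j + 1)
      rwa [mul_add] at this
    unfold cSucc
    rw [Sat_cNand, and_self, Sat_cAll]
    intro hall
    have h3 := hall (Structure.funMap (L := LA) AF.one ![])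
    rw [Sat_cNand, Sat_cAt, Sat_cAt, Dg_cd, Dg_cd] at h3
    refine h3 ⟨Or.inr (Or.inr (Or.inr (Or.inr ⟨rfl, ?_⟩))), Or.inl ⟨rfl, ?_⟩⟩
    · rw [Function.update_self]
    · have u0 : (0 : ℕ) ≠ 2 := by norm_num
      have u1 : (1 : ℕ) ≠ 2 := by norm_num
      rw [Function.update_self, Function.update_of_ne u0, Function.update_of_ne u1,
        e0, e1, CC_even, e2, nv_succ]
  | goal =>
    have h1 := (mem_ZZ _ _).1 (hp (fct a.2 ([], 2 * a.1)) (by simp))
    have h0 : (fun w => CC M (lk ([], 2 * a.1) w)) = fun _ => nv M a.1 := by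
      funext w
      simp only [lk, List.lookup_nil, Option.getD_none, CC_even]
    rw [h0] at h1
    exact hsat h1

end Pool.Agent.W932.SF
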