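import Pool.Agent.W921.SF.Stm
import Pool.Agent.H623R3.JC.P_IND
import Pool.Agent.Helper227.ENJ.P_dfn_all
import Pool.Agent.Helper227.ENJ.P_dfn_subst
import Pool.Agent.Helper227.ENJ.P_trm_ops

/-!
Solovay families: definable choice of a tuple by successive minimisation.
-/

set_option autoImplicit false

open FirstOrder FirstOrder.Language Pool.Agent.Helper227.EN

namespace Pool.Agent.W932.SF

open Pool.Agent.H623R3.JC
open Pool.Agent.W921.SF

section dfn

variable {M : Type} [LA.Structure M]

lemma dfn_support {R : (ℕ → M) → Prop} (h : Dfn R) :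
    ∃ B : ℕ, ∀ x y : ℕ → M, (∀ i < B, x i = y i) → (R x ↔ R y) := by
  obtain ⟨φ, hφ⟩ := h
  obtain ⟨n, hn⟩ : ∃ n : ℕ, ∀ i ∈ φ.freeVarFinset, i < n := by
    refine ⟨φ.freeVarFinset.sup id + 1, fun i hi => ?_⟩
    have : id i ≤ φ.freeVarFinset.sup id := Finset.le_sup hi
    simp only [id_eq] at this
    omega
  refine ⟨n, fun x y hxy => ?_⟩
  rw [← hφ, ← hφ]
  have key : ∀ z : ℕ → M, φ.Realize z ↔
      (BoundedFormula.restrictFreeVar φ fun i => (i : ℕ)).Realize
        (fun i : ℕ => if i < n then z i else x 0) default := by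
    intro z
    refine (BoundedFormula.realize_restrictFreeVar z fun a => ?_).symm
    exact if_pos (hn a a.2)
  rw [key x, key y]
  have : (fun i : ℕ => if i < n then x i else x 0) = fun i : ℕ => if i < n then y i else x 0 := by
    funext i
    by_cases h : i < n
    · rw [if_pos h, if_pos h, hxy i h]
    · rw [if_neg h, if_neg h]
  rw [this]

lemma trm_var (k : ℕ) : Trm (fun x : ℕ → M => x k) := ⟨Term.var k, fun _ => rfl⟩

/-- replacing the value of the variable `j` by the value of the variable `k` -/
lemma dfn_upd {R : (ℕ → M) → Prop} (h : Dfn R) (j k : ℕ) :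
    Dfn fun x => R (Function.update x j (x k)) := by
  have h1 := dfn_subst R h (fun i x => if i = j then x k else x i) (fun i => by
    by_cases hi : i = j
    · simp only [if_pos hi]; exact trm_var k
    · simp only [if_neg hi]; exact trm_var i)
  obtain ⟨φ, hφ⟩ := h1
  refine ⟨φ, fun x => (hφ x).trans ?_⟩
  have : (fun i => if i = j then x k else x i) = Function.update x j (x k) := by
    funext i
    by_cases hi : i = j
    · subst hi; simp
    · rw [if_neg hi, Function.update_of_ne hi]
  show (R fun i => if i = j then x k else x i) ↔ R (Function.update x j (x k))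
  rw [this]

lemma upd_support {R : (ℕ → M) → Prop} {B : ℕ}
    (hB : ∀ x y : ℕ → M, (∀ i < B, x i = y i) → (R x ↔ R y)) (x : ℕ → M) (j k : ℕ) (hk : B ≤ k)
    (hjk : j ≠ k) (v y : M) :
    R (Function.update (Function.update x k v) j y) ↔ R (Function.update x j y) := by
  refine hB _ _ fun i hi => ?_
  by_cases hij : i = j
  · subst hij; simp
  · rw [Function.update_of_ne hij, Function.update_of_ne hij, Function.update_of_ne (by omega)]

lemma dfn_exu {R : (ℕ → M) → Prop} (h : Dfn R) (j : ℕ) :
    Dfn fun x => ∃ z, R (Function.update x j z) := by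
  obtain ⟨B, hB⟩ := dfn_support h
  refine dfn_ex (fun x z => R (Function.update x j z)) (B + j + 1) (fun x y v => ?_)
    (dfn_upd h j _)
  exact upd_support hB x j _ (by omega) (by omega) v y

/-- quantification over the coordinates in a list -/
lemma dfn_exl {R : (ℕ → M) → Prop} (h : Dfn R) (l : List ℕ) :
    Dfn fun x => ∃ v : ℕ → M, (∀ i, i ∉ l → v i = x i) ∧ R v := by
  induction l with
  | nil =>
    obtain ⟨φ, hφ⟩ := h
    refine ⟨φ, fun x => (hφ x).trans ?_⟩
    constructor
    · intro hx; exact ⟨x, fun _ _ => rfl, hx⟩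
    · rintro ⟨v, hv, hR⟩
      have : v = x := funext fun i => hv i (by simp)
      rwa [this] at hR
  | cons a l ih =>
    obtain ⟨φ, hφ⟩ := dfn_exu ih a
    refine ⟨φ, fun x => (hφ x).trans ?_⟩
    constructor
    · rintro ⟨z, v, hv, hR⟩
      refine ⟨v, fun i hi => ?_, hR⟩
      rw [List.mem_cons, not_or] at hi
      rw [hv i hi.2, Function.update_of_ne hi.1]
    · rintro ⟨v, hv, hR⟩
      refine ⟨v a, v, fun i hi => ?_, hR⟩
      by_cases hia : i = a
      · subst hia; simp
      · rw [Function.update_of_ne hia]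
        exact hv i (by rw [List.mem_cons, not_or]; exact ⟨hia, hi⟩)

end dfn

section arith

variable {M : Type} [CommSemiring M] [LinearOrder M] [IsStrictOrderedRing M]
  [CanonicallyOrderedAdd M] [LA.Structure M]

lemma dfn_min (hc : Compat M) {P : (ℕ → M) → Prop} (h : Dfn P) (a c : ℕ) :
    Dfn fun x => ∀ z, z < x a → ¬ P (Function.update x c z) := by
  obtain ⟨B, hB⟩ := dfn_support h
  have h1 : Dfn fun x : ℕ → M => ∃ z, z < x a ∧ P (Function.update x c z) := by
    refine dfn_ex (fun x z => z < x a ∧ P (Function.update x c z)) (B + a + c + 1)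
      (fun x y v => ?_) ?_
    · refine and_congr ?_ (upd_support hB x c _ (by omega) (by omega) v y)
      rw [Function.update_of_ne (by omega)]
    · exact dfn_bool.2.2.1 _ _ ((trm_ops hc).2.2.2.2.2.1 _ _ (trm_var _) (trm_var _))
        (dfn_upd h c _)
  obtain ⟨φ, hφ⟩ := dfn_bool.2.1 _ h1
  refine ⟨φ, fun x => (hφ x).trans ?_⟩
  push Not
  rfl

/-- least number principle -/
lemma lnp (hM : NPA M) {P : (ℕ → M) → Prop} (h : Dfn P) (v : ℕ → M) (c : ℕ) {z : M}
    (hz : P (Function.update v c z)) :
    ∃ z0, P (Function.update v c z0) ∧ ∀ z, P (Function.update v c z) → z0 ≤ z := by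
  obtain ⟨B, hB⟩ := dfn_support h
  by_contra hcon
  push Not at hcon
  have hk : ∀ (k : ℕ) (_ : k = B + c + 1) (y : M), ∀ z, z < y → ¬ P (Function.update v c z) := by
    intro k hk
    have hsup : ∀ y z, P (Function.update (Function.update v k y) c z) ↔
        P (Function.update v c z) := fun y z =>
      upd_support hB v c k (by omega) (by omega) y z
    have h1 := prf_ind M hM _ (dfn_min hM.compat h k c) v k
      (fun z hz => absurd hz (by rw [Function.update_self]; exact not_lt_zero))
      (fun y hy z hz => by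
        rw [Function.update_self] at hz
        rw [hsup]
        intro hP
        have hy' : ∀ z, z < y → ¬ P (Function.update v c z) := by
          intro z' hz'
          rw [← hsup y z']
          exact hy z' (by rw [Function.update_self]; exact hz')
        have hzy : z = y := by
          rcases lt_trichotomy z y with h' | h' | h'
          · exact absurd hP (hy' z h')
          · exact h'
          · obtain ⟨w, hw⟩ := exists_add_of_le h'.le
            rw [hw] at hz
            have hw1 : w < 1 := lt_of_add_lt_add_left hz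
            rw [hw, hM.compat.disc w hw1, add_zero]
        obtain ⟨z', hz1, hz2⟩ := hcon z hP
        exact hy' z' (hzy ▸ hz2) hz1)
    intro y z hz
    have h2 := h1 y z (by rw [Function.update_self]; exact hz)
    rwa [hsup] at h2
  exact hk _ rfl (z + 1) z (lt_add_one z) hz

/-- the successive minimisations -/
def Mn (K : ℕ) (R : (ℕ → M) → Prop) : ℕ → (ℕ → M) → Prop
  | 0 => R
  | j + 1 => fun v => Mn K R j v ∧ ∀ v2, Mn K R j v2 → (∀ i, (i ≤ j ∨ K < i) → v2 i = v i) →
      v (j + 1) ≤ v2 (j + 1)

omit [IsStrictOrderedRing M] [CanonicallyOrderedAdd M] in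
lemma dfn_rest {R : (ℕ → M) → Prop} (h : Dfn R) (j K : ℕ) :
    Dfn fun x => ∃ v : ℕ → M, (∀ i, (i ≤ j ∨ K < i) → v i = x i) ∧ R v := by
  obtain ⟨φ, hφ⟩ := dfn_exl h ((List.range (K + 1)).filter fun i => j < i)
  refine ⟨φ, fun x => (hφ x).trans ?_⟩
  refine exists_congr fun v => and_congr_left fun _ => forall_congr' fun i => ?_
  refine imp_congr_left ?_
  rw [List.mem_filter, List.mem_range, decide_eq_true_iff]
  omega

lemma dfn_Mn (hc : Compat M) {R : (ℕ → M) → Prop} (h : Dfn R) (K j : ℕ) (hj : j ≤ K) :
    Dfn (Mn K R j) := by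
  induction j with
  | zero => exact h
  | succ j ih =>
    have h1 := ih (by omega)
    obtain ⟨φ, hφ⟩ := dfn_bool.2.2.1 _ _ h1 (dfn_min hc (dfn_rest h1 (j + 1) K) (j + 1) (j + 1))
    refine ⟨φ, fun x => (hφ x).trans (and_congr_right fun _ => ?_)⟩
    constructor
    · intro hmin v2 hv2 hag
      by_contra hlt
      push Not at hlt
      refine hmin _ hlt ⟨v2, fun i hi => ?_, hv2⟩
      by_cases hij : i = j + 1
      · subst hij; simp
      · rw [Function.update_of_ne hij]
        exact hag i (by omega)
    · rintro hmin z hz ⟨v2, hag, hv2⟩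
      have h2 := hmin v2 hv2 fun i hi => by
        rw [hag i (by omega), Function.update_of_ne (by omega)]
      rw [hag (j + 1) (Or.inl le_rfl), Function.update_self] at h2
      exact absurd hz (not_lt.2 h2)

omit [IsStrictOrderedRing M] [CanonicallyOrderedAdd M] [LA.Structure M] in
lemma Mn_sub {R : (ℕ → M) → Prop} {K j : ℕ} {v : ℕ → M} (h : Mn K R j v) : R v := by
  induction j with
  | zero => exact h
  | succ j ih => exact ih h.1

omit [IsStrictOrderedRing M] [CanonicallyOrderedAdd M] [LA.Structure M] in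
lemma Mn_one {R : (ℕ → M) → Prop} {K j : ℕ} {v : ℕ → M} (h : Mn K R (j + 1) v) :
    Mn K R 1 v := by
  induction j with
  | zero => exact h
  | succ j ih => exact ih h.1

lemma Mn_ex (hM : NPA M) {R : (ℕ → M) → Prop} (h : Dfn R) (K j : ℕ) (hj : j ≤ K) {v : ℕ → M}
    (hv : R v) : ∃ v', Mn K R j v' ∧ ∀ i, (i = 0 ∨ K < i) → v' i = v i := by
  induction j with
  | zero => exact ⟨v, hv, fun _ _ => rfl⟩
  | succ j ih =>
    obtain ⟨w, hw, hw'⟩ := ih (by omega)
    have h1 := dfn_Mn hM.compat h K j (by omega)
    obtain ⟨z0, ⟨v', hag, hv'⟩, hz0⟩ := lnp hM (dfn_rest h1 (j + 1) K) w (j + 1) (z := w (j + 1))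
      ⟨w, fun i _ => by rw [Function.update_eq_self], hw⟩
    refine ⟨v', ⟨hv', fun v2 hv2 hag2 => ?_⟩, fun i hi => ?_⟩
    · have e1 : v' (j + 1) = z0 := by rw [hag (j + 1) (Or.inl le_rfl), Function.update_self]
      rw [e1]
      refine hz0 _ ⟨v2, fun i hi => ?_, hv2⟩
      by_cases hij : i = j + 1
      · subst hij; simp
      · rw [hag2 i (by omega), hag i hi, Function.update_of_ne hij, Function.update_of_ne hij]
    · rw [hag i (by omega), Function.update_of_ne (by omega), hw' i hi]

omit [IsStrictOrderedRing M] [CanonicallyOrderedAdd M] [LA.Structure M] in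
lemma Mn_uniq {R : (ℕ → M) → Prop} {K j : ℕ} (hj : j ≤ K) {v v' : ℕ → M} (h : Mn K R j v)
    (h' : Mn K R j v') (hag : ∀ i, (i = 0 ∨ K < i) → v i = v' i) : ∀ i ≤ j, v i = v' i := by
  induction j with
  | zero => intro i hi; exact hag i (by omega)
  | succ j ih =>
    have h1 := ih (by omega) h.1 h'.1
    intro i hi
    rcases Nat.lt_or_ge j i with hlt | hge
    · have : i = j + 1 := by omega
      subst this
      refine le_antisymm ?_ ?_
      · exact h.2 v' h'.1 fun i hi => by
          rcases hi with hi | hi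
          · exact (h1 i hi).symm
          · exact (hag i (Or.inr hi)).symm
      · exact h'.2 v h.1 fun i hi => by
          rcases hi with hi | hi
          · exact h1 i hi
          · exact hag i (Or.inr hi)
    · exact h1 i hge

end arith

theorem pick : S_PICK := by
  intro M _ _ _ _ _ hM R K hR
  refine ⟨Mn K R K, dfn_Mn hM.compat hR K K le_rfl, fun v hv => Mn_sub hv, fun v v' hv hv' hag => ?_,
    fun v hv => Mn_ex hM hR K K le_rfl hv, fun hK v v' hv hv' hag => ?_⟩
  · funext i
    rcases Nat.lt_or_ge K i with h | h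
    · exact hag i (Or.inr h)
    · exact Mn_uniq le_rfl hv hv' hag i h
  · obtain ⟨j, rfl⟩ : ∃ j, K = j + 1 := ⟨K - 1, by omega⟩
    have h1 := Mn_one hv'
    exact h1.2 v hv fun i hi => (hag i (hi.imp_left Nat.le_zero.mp)).symm

end Pool.Agent.W932.SF
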